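import Mathlib

set_option autoImplicit false

namespace Pool.Agent.P.MP_9d1793_al

/-- `H` has a nontrivial homomorphism to the integers with finitely generated kernel. -/
def Fibered (H : Type) [Group H] : Prop :=
  ∃ f : H →* Multiplicative ℤ, f ≠ 1 ∧ f.ker.FG

/-- `G` has a fibered subgroup of finite index. -/
def VirtuallyFibered (G : Type) [Group G] : Prop :=
  ∃ K : Subgroup G, K.FiniteIndex ∧ Fibered K

/-- `H` is a retract of a finite index subgroup of `G` containing it. -/
def VirtualRetract {G : Type} [Group G] (H : Subgroup G) : Prop :=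
  ∃ K : Subgroup G, K.FiniteIndex ∧
    ∃ (hle : H ≤ K) (ρ : K →* H), ∀ h : H, ρ (Subgroup.inclusion hle h) = h

/-- `G` has a cyclic subgroup of finite index. -/
def VirtuallyCyclic (G : Type) [Group G] : Prop :=
  ∃ C : Subgroup G, C.FiniteIndex ∧ IsCyclic C

end Pool.Agent.P.MP_9d1793_al
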