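import Pool.Agent.P.MP_9d1793_al.Defs
import Pool.Agent.Lib.Amalgam.Wr
import Pool.Agent.Lib.Amalgam.FG
import Pool.Agent.Lib.Amalgam.Setup

set_option autoImplicit false

namespace Pool.Agent.P.MP_9d1793_al

open Pool.Agent.Lib.Amalgam Monoid Function Subgroup

/-- the action of the wreath product on the total space -/
@[reducible] def wrAction (Ω B : Type) [Group B] : MulAction (Wr Ω B) (Ω × B) where
  smul a x := (a.p x.1, a.f x.1 * x.2)
  one_smul x := by
    change ((1 : Wr Ω B).p x.1, (1 : Wr Ω B).f x.1 * x.2) = x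
    simp
  mul_smul a b x := by
    change ((a * b).p x.1, (a * b).f x.1 * x.2) =
      (a.p (b.p x.1), a.f (b.p x.1) * (b.f x.1 * x.2))
    simp [mul_assoc]

lemma fibered_restrict {G : Type} [Group G] (U V : Subgroup G) [V.FiniteIndex] (hle : V ≤ U)
    (f : U →* Multiplicative ℤ) (hf : f ≠ 1) (hfg : f.ker.FG) :
    f.comp (inclusion hle) ≠ 1 ∧ (f.comp (inclusion hle)).ker.FG := by
  constructor
  · intro h
    apply hf
    ext u
    obtain ⟨n, hn, -, hn'⟩ := V.exists_pow_mem_of_index_ne_zero FiniteIndex.index_ne_zero u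
    have h1 : f (u ^ n) = 1 := by
      have := DFunLike.congr_fun h ⟨_, hn'⟩
      exact this
    rw [map_pow] at h1
    have h2 := congrArg Multiplicative.toAdd h1
    simp only [toAdd_pow, nsmul_eq_mul, toAdd_one, mul_eq_zero, Nat.cast_eq_zero] at h2
    simpa using h2.resolve_left (by omega)
  · have : Group.FG f.ker := (Group.fg_iff_subgroup_fg _).mpr hfg
    have h1 : ((V.subgroupOf U).subgroupOf f.ker).FG :=
      (Group.fg_iff_subgroup_fg _).mp inferInstance
    apply fg_of_map (inclusion_injective hle)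
    convert fg_map h1 f.ker.subtype using 1
    ext u
    simp only [mem_map, MonoidHom.mem_ker, MonoidHom.comp_apply, mem_subgroupOf, coe_subtype]
    constructor
    · rintro ⟨v, hv, rfl⟩
      exact ⟨⟨_, hv⟩, v.2, rfl⟩
    · rintro ⟨v, hv, rfl⟩
      exact ⟨⟨_, hv⟩, v.2, rfl⟩

lemma exists_good {V T : Type} [Group V] [Finite T] (f ψ : V →* Multiplicative ℤ) (hf : f ≠ 1)
    (hfg : f.ker.FG) (s : T → V) (hψ : ∀ t, ψ (s t) ≠ 1) :
    ∃ α : V →* Multiplicative ℤ, α.ker.FG ∧ ∀ t, α (s t) ≠ 1 := by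
  obtain ⟨N₀, hN₀⟩ := fg_ker_perturb f ψ hf hfg
  obtain ⟨N, hN⟩ := (Set.finite_range (fun t => (ψ (s t)).toAdd.natAbs)).bddAbove
  refine ⟨f ^ (N₀ + N + 1) * ψ, hN₀ _ (by omega), fun t hh => ?_⟩
  have h1 : ((N₀ + N + 1 : ℕ) : ℤ) * (f (s t)).toAdd + (ψ (s t)).toAdd = 0 := by
    have := congrArg Multiplicative.toAdd hh
    simpa using this
  have h2 : (ψ (s t)).toAdd.natAbs ≤ N := hN ⟨t, rfl⟩
  by_cases h3 : (f (s t)).toAdd = 0
  · rw [h3] at h1
    exact hψ t (Multiplicative.toAdd.injective (by simpa using h1))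
  · have h4 : (ψ (s t)).toAdd.natAbs = (N₀ + N + 1) * (f (s t)).toAdd.natAbs := by
      rw [show (ψ (s t)).toAdd = -(((N₀ + N + 1 : ℕ) : ℤ) * (f (s t)).toAdd) by omega,
        Int.natAbs_neg, Int.natAbs_mul, Int.natAbs_natCast]
    have h5 : 1 ≤ (f (s t)).toAdd.natAbs := by omega
    nlinarith

theorem main {ι : Type} [Finite ι] [Nonempty ι] {G₀ : Type} [Group G₀] {G : ι → Type}
    [∀ i, Group (G i)] (φ : ∀ i, G₀ →* G i) (hφ : ∀ i, Injective (φ i)) [Infinite G₀]
    (h₀ : VirtuallyCyclic G₀) (hfib : ∀ i, VirtuallyFibered (G i))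
    (hvr : ∀ i, VirtualRetract (φ i).range) : VirtuallyFibered (PushoutI φ) := by
  classical
  have := Fintype.ofFinite ι
  obtain ⟨C₁, hC₁, hC₁'⟩ := h₀
  choose K hK hKle ρ hρ using hvr
  choose U hU f hf hfg using hfib
  obtain ⟨c, V, hc, hcfi, hVn, hVfi, hVU, hV, hl⟩ := exists_compatible φ C₁ K
    (fun i => (MonoidHom.ofInjective (hφ i)).symm.toMonoidHom.comp (ρ i))
    (fun i h => hKle i ⟨h, rfl⟩) (fun i h => by
      have := hρ i ⟨φ i h, h, rfl⟩
      simp only [MulEquiv.toMonoidHom_eq_coe, MonoidHom.comp_apply, MonoidHom.coe_coe]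
      rw [MulEquiv.symm_apply_eq]
      exact this) U
  choose l hl using hl
  choose T hT σ hσ using fun i => exists_section (φ i) (zpowers c) (V i) (hV i)
  have hcV : ∀ i, φ i c ∈ V i := fun i => (hV i c).mpr (mem_zpowers c)
  have hm : ∀ i (g : G i) (x : G₀), x ∈ zpowers c → g⁻¹ * φ i x * g ∈ V i := fun i g x hx => by
    simpa using (hVn i).conj_mem _ ((hV i x).mpr hx) g⁻¹
  have hα : ∀ i, ∃ α : V i →* Multiplicative ℤ, α.ker.FG ∧
      ∀ t, α ⟨_, hm i (σ i t) c (mem_zpowers c)⟩ ≠ 1 := by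
    intro i
    obtain ⟨ψ, hψ⟩ := exists_generic_conj (V i) (φ i c) (hcV i) (l i) (hl i _) (σ i)
    obtain ⟨h1, h2⟩ := fibered_restrict (U i) (V i) (hVU i) (f i) (hf i) (hfg i)
    exact exists_good _ ψ h1 h2 _ (fun t => hψ t _)
  choose α hαfg hα using hα
  let A : ∀ i, T i → ℤ := fun i t => (α i ⟨_, hm i (σ i t) c (mem_zpowers c)⟩).toAdd
  have hA : ∀ i t, A i t ≠ 0 := fun i t h => hα i t (Multiplicative.toAdd.injective h)
  let a : ι → (∀ j, T j) → ℤ := fun i τ => ∏ j ∈ Finset.univ.erase i, A j (τ j)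
  have ha : ∀ i τ, a i τ ≠ 0 := fun i τ => Finset.prod_ne_zero_iff.mpr (fun j _ => hA _ _)
  let J : ∀ i, (∀ j, T j) → V i →* Multiplicative ℤ := fun i τ => α i ^ (a i τ)
  have hJ : ∀ i τ x, (J i τ x).toAdd = a i τ * (α i x).toAdd := fun i τ x => by
    simp [J]
  have hJc : ∀ i τ (k : ℤ) (h : (σ i (τ i))⁻¹ * φ i (c ^ k) * σ i (τ i) ∈ V i),
      (J i τ ⟨_, h⟩).toAdd = k * ∏ j, A j (τ j) := by
    intro i τ k h
    have e : (⟨_, h⟩ : V i) = (⟨_, hm i (σ i (τ i)) c (mem_zpowers c)⟩ : V i) ^ k := by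
      apply Subtype.ext
      simp only [map_zpow, SubgroupClass.coe_zpow]
      have := conj_zpow (a := (σ i (τ i))⁻¹) (b := φ i c) (i := k)
      simpa using this.symm
    rw [hJ, e, map_zpow, toAdd_zpow, smul_eq_mul,
      ← Finset.mul_prod_erase _ _ (Finset.mem_univ i)]
    ring
  obtain ⟨i₀⟩ := ‹Nonempty ι›
  let w : (∀ j, T j) → zpowers c →* Multiplicative ℤ := fun τ => MonoidHom.mk'
    (fun x => J i₀ τ ⟨_, hm i₀ (σ i₀ (τ i₀)) x x.2⟩) (by
      intro x y
      rw [← map_mul]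
      congr 1
      apply Subtype.ext
      simp only [coe_mul, map_mul]
      group)
  have hwc : ∀ τ (k : ℤ) (h : c ^ k ∈ zpowers c), (w τ ⟨_, h⟩).toAdd = k * ∏ j, A j (τ j) :=
    fun τ k h => hJc i₀ τ k _
  obtain ⟨Θ, h1, h2, h3, h4⟩ := exists_hom φ (zpowers c) V hV T σ hσ J (by
      intro i τ t
      simp only [J, a]
      congr 1
      refine Finset.prod_congr rfl (fun j hj => ?_)
      rw [update_of_ne (Finset.ne_of_mem_erase hj)]) (fun _ _ => 1) w (by
      rintro i τ ⟨x, hx'⟩ hx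
      obtain ⟨k, rfl⟩ := mem_zpowers_iff.mp hx'
      apply Multiplicative.toAdd.injective
      rw [inv_one, one_mul, mul_one, hwc]
      exact hJc i τ k _)
  let _ := wrAction ((G₀ ⧸ zpowers c) × ∀ j, T j) (Multiplicative ℤ)
  let _ : MulAction (PushoutI φ) (((G₀ ⧸ zpowers c) × ∀ j, T j) × Multiplicative ℤ) :=
    MulAction.compHom _ Θ
  have hsmul : ∀ (g : PushoutI φ) (o : ((G₀ ⧸ zpowers c) × ∀ j, T j) × Multiplicative ℤ),
      g • o = ((Θ g).p o.1, (Θ g).f o.1 * o.2) := fun _ _ => rfl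
  have hcp : ∀ ω, (Θ (PushoutI.base φ c)).p ω = ω := fun ω => by
    rw [← PushoutI.of_apply_eq_base φ i₀, h1]; exact hcV i₀
  have hcf : ∀ ω, ((Θ (PushoutI.base φ c)).f ω).toAdd ≠ 0 := by
    intro ω
    rw [h4]
    have hr : c • ω.1 = ω.1 := by
      have := hcp ω
      rw [h3] at this
      exact congrArg Prod.fst this
    obtain ⟨k, hk⟩ := mem_zpowers_iff.mp (out_mem (zpowers c) c ω.1)
    have e : (⟨_, out_mem (zpowers c) c ω.1⟩ : zpowers c) = ⟨c ^ k, zpow_mem_zpowers c k⟩ :=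
      Subtype.ext hk.symm
    rw [e, hwc]
    refine mul_ne_zero ?_ (Finset.prod_ne_zero_iff.mpr (fun j _ => hA _ _))
    rintro rfl
    rw [hr, zpow_zero] at hk
    have h5 : c ^ (1 : ℤ) = 1 := by
      have : c = ω.1.out * (ω.1.out⁻¹ * c * ω.1.out) * ω.1.out⁻¹ := by group
      rw [zpow_one, this, ← hk]
      group
    exact one_ne_zero (hc 1 h5)
  have hcpow : ∀ (k : ℤ) ω (n : ℤ), (PushoutI.base φ c) ^ k • (ω, Multiplicative.ofAdd n) =
      (ω, Multiplicative.ofAdd (n + k * ((Θ (PushoutI.base φ c)).f ω).toAdd)) := by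
    have one : ∀ ω (n : ℤ), (PushoutI.base φ c) • (ω, Multiplicative.ofAdd n) =
        (ω, Multiplicative.ofAdd (n + ((Θ (PushoutI.base φ c)).f ω).toAdd)) := by
      intro ω n
      rw [hsmul, hcp, add_comm]
      rfl
    intro k ω
    induction k using Int.induction_on with
    | zero => simp
    | succ k ih =>
      intro n
      rw [zpow_add_one, mul_smul, one, ih]
      congr 2
      ring
    | pred k ih =>
      intro n
      rw [zpow_sub_one, mul_smul]
      have : (PushoutI.base φ c)⁻¹ • (ω, Multiplicative.ofAdd n) =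
          (ω, Multiplicative.ofAdd (n - ((Θ (PushoutI.base φ c)).f ω).toAdd)) := by
        rw [inv_smul_eq_iff, one, sub_add_cancel]
      rw [this, ih]
      congr 2
      ring
  obtain ⟨M, hM⟩ := (Set.finite_range
    (fun ω => |((Θ (PushoutI.base φ c)).f ω).toAdd|)).bddAbove
  have hω₀ : Nonempty ((G₀ ⧸ zpowers c) × ∀ j, T j) :=
    ⟨((1 : G₀), fun j => (hσ j 1).exists.choose.2)⟩
  obtain ⟨ω₀⟩ := hω₀
  have hst := fg_stabilizer (G := PushoutI φ) (fun i => (PushoutI.of (φ := φ) i).range)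
    (PushoutI.base φ).range (by
      rintro i _ ⟨h, rfl⟩
      exact ⟨φ i h, PushoutI.of_apply_eq_base φ i h⟩) (by
      intro p hp hmul g
      induction g using PushoutI.induction_on with
      | of i g => exact hp i _ ⟨g, rfl⟩
      | base h => exact hp i₀ _ ⟨φ i₀ h, PushoutI.of_apply_eq_base φ i₀ h⟩
      | mul x y hx hy => exact hmul x y hx hy)
    (Set.univ ×ˢ (Multiplicative.ofAdd '' Set.Icc 0 M))
    (Set.finite_univ.prod ((Set.finite_Icc 0 M).image _)) (by
      rintro ⟨ω, n⟩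
      have hD := hcf ω
      have hDM : |((Θ (PushoutI.base φ c)).f ω).toAdd| ≤ M := hM ⟨ω, rfl⟩
      refine ⟨(PushoutI.base φ c) ^ (n.toAdd / ((Θ (PushoutI.base φ c)).f ω).toAdd),
        zpow_mem (MonoidHom.mem_range.mpr ⟨c, rfl⟩) _,
        (ω, Multiplicative.ofAdd (n.toAdd % ((Θ (PushoutI.base φ c)).f ω).toAdd)),
        ⟨trivial, _, ⟨Int.emod_nonneg _ hD, (Int.emod_lt_abs _ hD).le.trans hDM⟩, rfl⟩, ?_⟩
      rw [hcpow, Int.emod_add_ediv_mul]
      rfl) (by
      intro i o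
      let s : G i := φ i o.1.1.out * σ i (o.1.2 i)
      convert fg_map (fg_map (fg_map (hαfg i) (V i).subtype) (MulAut.conj s).toMonoidHom)
        (PushoutI.of (φ := φ) i) using 1
      ext y
      simp only [mem_inf, MonoidHom.mem_range, MulAction.mem_stabilizer_iff, mem_map,
        MonoidHom.mem_ker, coe_subtype, MulEquiv.toMonoidHom_eq_coe, MonoidHom.coe_coe,
        MulAut.conj_apply]
      constructor
      · rintro ⟨⟨g, rfl⟩, hg⟩
        rw [hsmul, Prod.ext_iff] at hg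
        have hgV : g ∈ V i := (h1 i g o.1).mp hg.1
        have hgs : s⁻¹ * g * s ∈ V i := by simpa using (hVn i).conj_mem _ hgV s⁻¹
        have h6 := hg.2
        simp only [mul_eq_right] at h6
        rw [h2 i g o.1 hgs, inv_one, one_mul, mul_one] at h6
        have h7 := congrArg Multiplicative.toAdd h6
        rw [hJ, toAdd_one, mul_eq_zero] at h7
        refine ⟨g, ⟨s⁻¹ * g * s, ⟨⟨_, hgs⟩, Multiplicative.toAdd.injective
          (h7.resolve_left (ha _ _)), rfl⟩, by group⟩, rfl⟩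
      · rintro ⟨_, ⟨_, ⟨v, hv, rfl⟩, rfl⟩, rfl⟩
        refine ⟨⟨_, rfl⟩, ?_⟩
        have hgV : s * v * s⁻¹ ∈ V i := (hVn i).conj_mem _ v.2 s
        have hgs : s⁻¹ * (s * v * s⁻¹) * s ∈ V i := by simp [mul_assoc]
        rw [hsmul, (h1 i _ o.1).mpr hgV, h2 i _ o.1 hgs, inv_one, one_mul, mul_one]
        have e : (⟨_, hgs⟩ : V i) = v := Subtype.ext (by simp [mul_assoc])
        have : J i o.1.2 ⟨_, hgs⟩ = 1 := by
          apply Multiplicative.toAdd.injective
          rw [hJ, e, hv]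
          simp
        rw [this, one_mul]) (ω₀, 1)
  let M₀ : Subgroup (PushoutI φ) :=
    (MulAction.stabilizer (Equiv.Perm ((G₀ ⧸ zpowers c) × ∀ j, T j)) ω₀).comap (Wr.perm.comp Θ)
  have hM₀ : ∀ g, g ∈ M₀ ↔ (Θ g).p ω₀ = ω₀ := fun g => Iff.rfl
  let χ : M₀ →* Multiplicative ℤ := MonoidHom.mk' (fun g => (Θ g).f ω₀) (by
    intro x y
    simp only [coe_mul, map_mul, Wr.mul_f, (hM₀ _).mp y.2])
  refine ⟨M₀, fi_comap _ _, χ, ?_, ?_⟩
  · intro h
    have := DFunLike.congr_fun h ⟨PushoutI.base φ c, (hM₀ _).mpr (hcp ω₀)⟩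
    exact hcf ω₀ (congrArg Multiplicative.toAdd this)
  · apply fg_of_map M₀.subtype_injective
    convert hst using 1
    ext g
    simp only [mem_map, MonoidHom.mem_ker, coe_subtype, MulAction.mem_stabilizer_iff, hsmul,
      Prod.mk.injEq, mul_one]
    constructor
    · rintro ⟨x, hx, rfl⟩
      exact ⟨(hM₀ _).mp x.2, hx⟩
    · rintro ⟨hx, hy⟩
      exact ⟨⟨g, (hM₀ _).mpr hx⟩, hy, rfl⟩

end Pool.Agent.P.MP_9d1793_al
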